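import Pool.Agent.X13.GC.Main

/-!
# When is the gcd of `binom(2k, k), …, binom((k+1)k, k)` equal to `1`?
-/

open Finset

namespace Pool.Agent.Results.MP_cb2649_nt.GcdCriterion

open Pool.Agent.X13.GC

/-- `G(k) = gcd(binom(2k, k), binom(3k, k), …, binom((k+1)k, k))`. -/
def G (k : ℕ) : ℕ := (Finset.Icc 2 (k + 1)).gcd fun j => (j * k).choose k

/-- `P(n)`: the largest prime power `p ^ {v_p(n)}` exactly dividing `n`. -/
def P (n : ℕ) : ℕ := n.primeFactors.sup fun p => p ^ n.factorization p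

lemma nc_lift {p : ℕ} (hp : p.Prime) {k M a s : ℕ} (hk : k + 1 = p ^ a * (M + 1))
    (h : NC p M (s * k)) : NC p k (p ^ a * s * k) := by
  have hp2 := hp.two_le
  intro i
  have hkM : k = M * p ^ a + (p ^ a - 1) := by
    have : 0 < p ^ a := by positivity
    have : p ^ a * (M + 1) = M * p ^ a + p ^ a := by ring
    omega
  have hpa : 0 < p ^ a := by positivity
  rcases le_or_gt i a with hi | hi
  · have h1 : p ^ i ∣ p ^ a * s * k := by
      rw [mul_assoc]
      exact Dvd.dvd.mul_right (pow_dvd_pow p hi) _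
    rw [Nat.mod_eq_zero_of_dvd h1, add_zero]
    exact Nat.mod_lt _ (by positivity)
  · have e1 : k % p ^ i = (M % p ^ (i - a)) * p ^ a + (p ^ a - 1) := by
      conv_lhs => rw [hkM]
      exact mod_concat hp2 (by omega) hi.le
    have e2 : (p ^ a * s * k) % p ^ i = ((s * k) % p ^ (i - a)) * p ^ a + 0 := by
      rw [show p ^ a * s * k = (s * k) * p ^ a + 0 by ring]
      exact mod_concat hp2 hpa hi.le
    rw [e1, e2]
    have h3 := h (i - a)
    have h4 : (M % p ^ (i - a) + (s * k) % p ^ (i - a) + 1) * p ^ a ≤ p ^ (i - a) * p ^ a :=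
      Nat.mul_le_mul_right _ h3
    rw [← pow_add, Nat.sub_add_cancel hi.le] at h4
    have h5 : (M % p ^ (i - a) + (s * k) % p ^ (i - a) + 1) * p ^ a =
        (M % p ^ (i - a)) * p ^ a + ((s * k) % p ^ (i - a)) * p ^ a + p ^ a := by ring
    omega

/-- If the exact power `q` of `p` dividing `k + 1` satisfies `q ^ 2 < k + 1`, then `p` misses one
of the binomial coefficients. -/
lemma exists_j {p : ℕ} (hp : p.Prime) {k : ℕ}
    (hsmall : (p ^ (k + 1).factorization p) ^ 2 < k + 1) :
    ∃ j ∈ Finset.Icc 2 (k + 1), ¬ p ∣ (j * k).choose k := by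
  set a := (k + 1).factorization p with ha
  have hpa : 0 < p ^ a := by have := hp.pos; positivity
  obtain ⟨m, hm⟩ := Nat.ordProj_dvd (k + 1) p
  rw [← ha] at hm
  have hm0 : m ≠ 0 := by
    rintro rfl
    omega
  obtain ⟨M, rfl⟩ : ∃ M, m = M + 1 := ⟨m - 1, by omega⟩
  have hpM : ¬ p ∣ M + 1 := by
    intro hd
    have h1 : p ^ (a + 1) ∣ k + 1 := by
      rw [hm, pow_succ]
      exact Nat.mul_dvd_mul_left _ hd
    exact Nat.pow_succ_factorization_not_dvd (Nat.succ_ne_zero k) hp h1
  have hq : p ^ a ≤ M := by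
    have h1 : p ^ a * p ^ a < p ^ a * (M + 1) := by
      rw [← hm, ← pow_two]
      exact hsmall
    have := Nat.lt_of_mul_lt_mul_left h1
    omega
  obtain ⟨s, hs1, hs2, hs⟩ := exists_s hp hm hpM hq
  have h1 := not_dvd_choose hp (nc_lift hp hm hs)
  refine ⟨p ^ a * s + 1, ?_, ?_⟩
  · rw [Finset.mem_Icc]
    constructor
    · have : 1 * 1 ≤ p ^ a * s := Nat.mul_le_mul hpa hs1
      omega
    · have h2 : p ^ a * s ≤ p ^ a * M := Nat.mul_le_mul_left _ hs2
      have h3 : p ^ a * (M + 1) = p ^ a * M + p ^ a := by ring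
      omega
  · have e : (p ^ a * s + 1) * k = p ^ a * s * k + k := by ring
    rw [e]
    exact h1

/-- If a prime power `q = p ^ a`, `a ≥ 1`, divides `k + 1` and `k + 1 ≤ q ^ 2`, then `p` divides
each of the binomial coefficients. -/
lemma dvd_all {p : ℕ} (hp : p.Prime) {k a : ℕ} (hdvd : p ^ a ∣ k + 1)
    (hbig : k + 1 ≤ (p ^ a) ^ 2) (j : ℕ) (hj : j ∈ Finset.Icc 2 (k + 1)) :
    p ∣ (j * k).choose k := by
  have hp2 := hp.two_le
  rw [Finset.mem_Icc] at hj
  obtain ⟨t, rfl⟩ : ∃ t, j = t + 1 := ⟨j - 1, by omega⟩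
  have e : (t + 1) * k = t * k + k := by ring
  rw [e]
  by_contra hnd
  have hnc : ∀ i, k % p ^ i + (t * k) % p ^ i < p ^ i := by
    intro i
    by_contra hc
    push Not at hc
    exact hnd (dvd_choose hp hc)
  obtain ⟨m, hm⟩ := hdvd
  have hm0 : m ≠ 0 := by
    rintro rfl
    omega
  obtain ⟨M, rfl⟩ : ∃ M, m = M + 1 := ⟨m - 1, by omega⟩
  set q := p ^ a with hq
  have hq0 : 0 < q := by positivity
  have hkM : k = M * q + (q - 1) := by
    have : q * (M + 1) = M * q + q := by ring
    omega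
  -- `q ∣ t`
  have h1 := hnc a
  have h2 : k % q = q - 1 := by
    rw [hkM, mul_comm M q, Nat.mul_add_mod, Nat.mod_eq_of_lt (by omega)]
  rw [← hq, h2] at h1
  have h3 : q ∣ t * k := Nat.dvd_of_mod_eq_zero (by omega)
  have hcop : Nat.Coprime q k := by
    have : Nat.Coprime (k + 1) k := by simp
    exact Nat.Coprime.coprime_dvd_left ⟨M + 1, hm⟩ this
  obtain ⟨s, rfl⟩ := hcop.dvd_of_dvd_mul_right h3
  have hs1 : 1 ≤ s := by
    rcases Nat.eq_zero_or_pos s with h | h
    · subst h; omega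
    · exact h
  have hMq : M + 1 ≤ q := by
    have : q * (M + 1) ≤ q * q := by rw [← hm, ← pow_two]; exact hbig
    exact Nat.le_of_mul_le_mul_left this hq0
  have hsM : s ≤ M := by
    have h4 : q * s < q * (M + 1) := by rw [← hm]; omega
    have := Nat.lt_of_mul_lt_mul_left h4
    omega
  -- look at `p ^ (2a)`
  have h5 := hnc (a + a)
  have hqq : p ^ (a + a) = q * q := by rw [hq, pow_add]
  rw [hqq] at h5
  have hklt : k < q * q := by
    have : k + 1 ≤ q * q := by rw [← pow_two]; exact hbig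
    omega
  have h6 : (q * s * k) % (q * q) = q * (q - s) := by
    rw [mul_assoc, Nat.mul_mod_mul_left]
    congr 1
    -- `s k ≡ - s`
    have h7 : s * k + s = s * (M + 1) * q := by
      calc s * k + s = s * (k + 1) := by ring
        _ = s * (q * (M + 1)) := by rw [hm]
        _ = s * (M + 1) * q := by ring
    have h8 : s * k = (s * (M + 1) - 1) * q + (q - s) := by
      have h9 : 1 ≤ s * (M + 1) := Nat.one_le_iff_ne_zero.2 (by positivity)
      obtain ⟨w, hw⟩ : ∃ w, s * (M + 1) = w + 1 := ⟨s * (M + 1) - 1, by omega⟩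
      rw [hw] at h7 ⊢
      rw [Nat.add_sub_cancel]
      rw [add_mul, one_mul] at h7
      omega
    rw [h8, mul_comm _ q, Nat.mul_add_mod, Nat.mod_eq_of_lt (by omega)]
  rw [h6, Nat.mod_eq_of_lt hklt] at h5
  have h10 : q * (q - s) + q * s = q * q := by
    rw [← mul_add]
    congr 1
    omega
  have h11 : q * s ≤ M * q := by rw [mul_comm]; exact Nat.mul_le_mul_right _ hsM
  omega

lemma le_P {n p : ℕ} (hp : p.Prime) (hn : n ≠ 0) (hd : p ∣ n) : p ^ n.factorization p ≤ P n := by
  unfold P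
  exact Finset.le_sup (f := fun p => p ^ n.factorization p) (Nat.mem_primeFactors.2 ⟨hp, hd, hn⟩)

lemma P_attained {n : ℕ} (hn : 2 ≤ n) :
    ∃ p, p.Prime ∧ p ∣ n ∧ P n = p ^ n.factorization p := by
  have hne : n.primeFactors.Nonempty := Nat.nonempty_primeFactors.2 (by omega)
  obtain ⟨p, hp, he⟩ := Finset.exists_mem_eq_sup _ hne (fun p => p ^ n.factorization p)
  exact ⟨p, Nat.prime_of_mem_primeFactors hp, Nat.dvd_of_mem_primeFactors hp, he⟩

lemma lt_div_iff {n : ℕ} (hn : 2 ≤ n) : P n < n / P n ↔ (P n) ^ 2 < n := by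
  obtain ⟨p, hp, _, he⟩ := P_attained hn
  have hd : P n ∣ n := by rw [he]; exact Nat.ordProj_dvd n p
  have hpos : 0 < P n := by rw [he]; have := hp.pos; positivity
  obtain ⟨c, hc⟩ := hd
  have h1 : n / P n = c := Nat.div_eq_of_eq_mul_right hpos hc
  rw [h1, pow_two]
  constructor
  · intro h
    calc P n * P n < P n * c := Nat.mul_lt_mul_of_pos_left h hpos
      _ = n := hc.symm
  · intro h
    rw [hc] at h
    have h2 : P n * P n < P n * c := by
      calc P n * P n = P (P n * c) * P (P n * c) := by rw [← hc]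
        _ < P n * c := h
    exact Nat.lt_of_mul_lt_mul_left h2

lemma criterion (k : ℕ) (hk : 2 ≤ k) : G k = 1 ↔ P (k + 1) < (k + 1) / P (k + 1) := by
  rw [lt_div_iff (by omega)]
  constructor
  · intro hG
    by_contra hc
    push Not at hc
    obtain ⟨p, hp, hpd, he⟩ := P_attained (show 2 ≤ k + 1 by omega)
    have h1 : p ∣ G k := by
      unfold G
      apply Finset.dvd_gcd
      intro j hj
      rw [he] at hc
      exact dvd_all hp (Nat.ordProj_dvd (k + 1) p) hc j hj
    rw [hG] at h1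
    have := hp.two_le
    have := Nat.le_of_dvd one_pos h1
    omega
  · intro h
    by_contra hne
    obtain ⟨p, hp, hpd⟩ := Nat.exists_prime_and_dvd hne
    have hsmall : (p ^ (k + 1).factorization p) ^ 2 < k + 1 := by
      by_cases hd : p ∣ k + 1
      · exact lt_of_le_of_lt (Nat.pow_le_pow_left (le_P hp (Nat.succ_ne_zero k) hd) 2) h
      · rw [Nat.factorization_eq_zero_of_not_dvd hd]
        simp
        omega
    obtain ⟨j, hj, hnd⟩ := exists_j hp hsmall
    apply hnd
    exact hpd.trans (Finset.gcd_dvd hj)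

lemma P_31 : P 31 = 31 := by
  have hp : Nat.Prime 31 := by norm_num
  unfold P
  rw [hp.primeFactors, Finset.sup_singleton, hp.factorization_self, pow_one]

lemma P_30 : P 30 ≤ 5 := by
  unfold P
  apply Finset.sup_le
  intro p hp
  have hpp := Nat.prime_of_mem_primeFactors hp
  have hd := Nat.dvd_of_mem_primeFactors hp
  have h1 : p ^ (30 : ℕ).factorization p ∣ 30 := Nat.ordProj_dvd 30 p
  have h2 : ¬ p ^ ((30 : ℕ).factorization p + 1) ∣ 30 :=
    Nat.pow_succ_factorization_not_dvd (by norm_num) hpp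
  have h3 : (30 : ℕ).factorization p ≤ 1 := by
    by_contra hc
    push Not at hc
    have h4 : p ^ 2 ∣ 30 := (pow_dvd_pow p hc).trans h1
    have h5 : p ≤ 5 := by
      have := Nat.le_of_dvd (by norm_num) h4
      nlinarith
    have h6 := hpp.two_le
    interval_cases p <;> norm_num at h4
  have h6 : p ≤ 30 := Nat.le_of_dvd (by norm_num) hd
  have h7 : p ≤ 5 := by
    by_contra hc
    push Not at hc
    have h8 : p = 6 ∨ p = 10 ∨ p = 15 ∨ p = 30 := by
      clear hpp h1 h2 h3 hp
      interval_cases p <;> omega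
    rcases h8 with h8 | h8 | h8 | h8 <;> rw [h8] at hpp <;> norm_num at hpp
  calc p ^ (30 : ℕ).factorization p ≤ p ^ 1 := Nat.pow_le_pow_right hpp.pos h3
    _ = p := pow_one p
    _ ≤ 5 := h7

/-- **Criterion.** For every `k ≥ 2`, `G(k) = 1` if and only if `(k+1) / P(k+1) > P(k+1)`;
and the equivalence with `P(k)` in place of `P(k+1)` fails at `k = 30`. -/
theorem result :
    (∀ k : ℕ, 2 ≤ k → (G k = 1 ↔ (k + 1) / P (k + 1) > P (k + 1))) ∧
      ¬ (G 30 = 1 ↔ 30 / P 30 > P 30) := by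
  refine ⟨fun k hk => criterion k hk, ?_⟩
  intro h
  have h1 : 30 / P 30 > P 30 := by
    change P 30 < 30 / P 30
    rw [lt_div_iff (by norm_num)]
    have := P_30
    nlinarith
  have h2 := (criterion 30 (by norm_num)).1 (h.2 h1)
  rw [show 30 + 1 = 31 by norm_num, P_31] at h2
  norm_num at h2

end Pool.Agent.Results.MP_cb2649_nt.GcdCriterion
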